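import Mathlib

/-!
The exponent in the Hall–Lang conjecture is at least `15 / 2`.

For every integer `k` put `c = k ^ 4 + k ^ 2 + 1` and `s = k (k ^ 4 + 2 k ^ 2 + 3) / 2` (an integer).
Then `x = s ^ 2 + 2 c`, `y = s ^ 3 + 3 c s + 3 k ^ 3` is an integral point on
`y ^ 2 = x ^ 3 - (2 k ^ 2 + 7) x + 3 (k ^ 2 + 2)`.
-/

set_option autoImplicit false

namespace Pool.Agent.Results.MP_a1107e_nt.ExponentAtLeast

/-- the identity -/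
theorem key (k s : ℤ) (hs : 2 * s = k * (k ^ 4 + 2 * k ^ 2 + 3)) :
    (s ^ 3 + 3 * (k ^ 4 + k ^ 2 + 1) * s + 3 * k ^ 3) ^ 2 =
      (s ^ 2 + 2 * (k ^ 4 + k ^ 2 + 1)) ^ 3
        + (-(2 * k ^ 2 + 7)) * (s ^ 2 + 2 * (k ^ 4 + k ^ 2 + 1)) + 3 * (k ^ 2 + 2) := by
  linear_combination (3 * k ^ 3 * s ^ 2 - 2 * (k ^ 2 - 1) * s + 9 * (k ^ 4 + k ^ 2 + 1) * k ^ 3
    - (k ^ 2 - 1) * k * (k ^ 4 + 2 * k ^ 2 + 3)) * hs

theorem exists_s (k : ℤ) : ∃ s : ℤ, 2 * s = k * (k ^ 4 + 2 * k ^ 2 + 3) := by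
  rcases Int.even_or_odd' k with ⟨m, rfl | rfl⟩
  · exact ⟨m * ((2 * m) ^ 4 + 2 * (2 * m) ^ 2 + 3), by ring⟩
  · exact ⟨(2 * m + 1) * (8 * m ^ 4 + 16 * m ^ 3 + 16 * m ^ 2 + 8 * m + 3), by ring⟩

theorem disc_ne (k : ℤ) :
    4 * (-(2 * k ^ 2 + 7)) ^ 3 + 27 * (3 * (k ^ 2 + 2)) ^ 2 ≠ 0 := by
  have h : 4 * (-(2 * k ^ 2 + 7)) ^ 3 + 27 * (3 * (k ^ 2 + 2)) ^ 2 =
      -(32 * (k ^ 2) ^ 3 + 93 * (k ^ 2) ^ 2 + 204 * k ^ 2 + 400) := by ring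
  rw [h]
  have : 0 < 32 * (k ^ 2) ^ 3 + 93 * (k ^ 2) ^ 2 + 204 * k ^ 2 + 400 := by positivity
  omega

/-- the family -/
theorem family (k : ℤ) (hk : 1 ≤ k) : ∃ x y : ℤ,
    4 * (-(2 * k ^ 2 + 7)) ^ 3 + 27 * (3 * (k ^ 2 + 2)) ^ 2 ≠ 0 ∧
    y ^ 2 = x ^ 3 + (-(2 * k ^ 2 + 7)) * x + 3 * (k ^ 2 + 2) ∧
    k ^ 10 ≤ 4 * x ∧ k ^ 15 ≤ 8 * y := by
  obtain ⟨s, hs⟩ := exists_s k
  have hk0 : 0 < k := by omega
  have hs1 : k ^ 5 ≤ 2 * s := by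
    rw [hs]
    have : k * (k ^ 4 + 2 * k ^ 2 + 3) = k ^ 5 + (2 * k ^ 3 + 3 * k) := by ring
    rw [this]
    have : 0 < 2 * k ^ 3 + 3 * k := by positivity
    omega
  have hs0 : 0 < s := by
    have : 0 < k ^ 5 := by positivity
    omega
  refine ⟨s ^ 2 + 2 * (k ^ 4 + k ^ 2 + 1), s ^ 3 + 3 * (k ^ 4 + k ^ 2 + 1) * s + 3 * k ^ 3,
    disc_ne k, key k s hs, ?_, ?_⟩
  · have h1 : (k ^ 5) ^ 2 ≤ (2 * s) ^ 2 := pow_le_pow_left₀ (by positivity) hs1 2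
    have h2 : 0 < k ^ 4 + k ^ 2 + 1 := by positivity
    nlinarith [h1, h2]
  · have h1 : (k ^ 5) ^ 3 ≤ (2 * s) ^ 3 := pow_le_pow_left₀ (by positivity) hs1 3
    have h2 : 0 < 3 * (k ^ 4 + k ^ 2 + 1) * s + 3 * k ^ 3 := by positivity
    nlinarith [h1, h2]

theorem height_le (k : ℤ) (hk : 2 ≤ k) :
    0 < max |(-(2 * k ^ 2 + 7))| |3 * (k ^ 2 + 2)| ∧
      max |(-(2 * k ^ 2 + 7))| |3 * (k ^ 2 + 2)| ≤ 6 * k ^ 2 := by
  have hk2 : 4 ≤ k ^ 2 := by nlinarith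
  rw [abs_neg, abs_of_pos (by positivity), abs_of_pos (by positivity)]
  constructor
  · exact lt_max_of_lt_left (by positivity)
  · exact max_le (by linarith) (by linarith)

/-- growth -/
theorem growth (a c E : ℝ) (h : E < a) :
    ∃ k : ℕ, 2 ≤ k ∧ c * (k : ℝ) ^ E < (k : ℝ) ^ a := by
  have h1 : Filter.Tendsto (fun n : ℕ => (n : ℝ) ^ (a - E)) Filter.atTop Filter.atTop :=
    (tendsto_rpow_atTop (by linarith)).comp tendsto_natCast_atTop_atTop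
  obtain ⟨k, hk1, hk2⟩ := ((h1.eventually_gt_atTop c).and (Filter.eventually_ge_atTop 2)).exists
  refine ⟨k, hk2, ?_⟩
  have hk0 : (0 : ℝ) < k := by exact_mod_cast (by omega : 0 < k)
  rw [Real.rpow_sub hk0] at hk1
  rwa [lt_div_iff₀ (Real.rpow_pos_of_pos hk0 _)] at hk1

/-- a bound with the exponent `M` for a quantity that is at least `k ^ a / b` -/
theorem exponent (a b : ℕ) (ha : 0 < a) (hb : 0 < b) (K M : ℝ) (hK : 0 < K) (hM : 0 < M)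
    (h : ∀ k : ℤ, 2 ≤ k → (k : ℝ) ^ a ≤ b *
      (K * ((max |(-(2 * k ^ 2 + 7))| |3 * (k ^ 2 + 2)| : ℤ) : ℝ) ^ M)) : (a : ℝ) / 2 ≤ M := by
  by_contra hlt
  push Not at hlt
  obtain ⟨k, hk2, hk⟩ := growth a (b * (K * 6 ^ M)) (2 * M)
    (by linarith)
  have h1 := h k (by exact_mod_cast hk2)
  obtain ⟨h2, h3⟩ := height_le k (by exact_mod_cast hk2)
  have hk0 : (0 : ℝ) < k := by exact_mod_cast (by omega : 0 < k)
  have h4 : ((max |(-(2 * (k : ℤ) ^ 2 + 7))| |3 * ((k : ℤ) ^ 2 + 2)| : ℤ) : ℝ) ^ M ≤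
      6 ^ M * (k : ℝ) ^ (2 * M) := by
    calc ((max |(-(2 * (k : ℤ) ^ 2 + 7))| |3 * ((k : ℤ) ^ 2 + 2)| : ℤ) : ℝ) ^ M
        ≤ (6 * (k : ℝ) ^ 2) ^ M := by
          refine Real.rpow_le_rpow (by exact_mod_cast h2.le) ?_ hM.le
          exact_mod_cast h3
      _ = 6 ^ M * (k : ℝ) ^ (2 * M) := by
          rw [Real.mul_rpow (by norm_num) (by positivity), Real.rpow_mul hk0.le]
          norm_num
  have h5 : ((k : ℤ) : ℝ) ^ a ≤ b * (K * 6 ^ M) * (k : ℝ) ^ (2 * M) := by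
    calc ((k : ℤ) : ℝ) ^ a ≤ _ := h1
      _ ≤ b * (K * (6 ^ M * (k : ℝ) ^ (2 * M))) := by gcongr
      _ = _ := by ring
  rw [Real.rpow_natCast] at hk
  have h6 : ((k : ℤ) : ℝ) ^ a = (k : ℝ) ^ a := by norm_cast
  rw [h6] at h5
  linarith

/-- **The exponent in the Hall–Lang conjecture is at least `15 / 2`.**
(1) For every integer `k ≥ 1` the elliptic curve `y ^ 2 = x ^ 3 - (2 k ^ 2 + 7) x + 3 (k ^ 2 + 2)`
has an integral point with `x ≥ k ^ 10 / 4` and `y ≥ k ^ 15 / 8`.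
(2) If `K, M > 0` are such that `max |x| |y| ≤ K (max |A| |B|) ^ M` holds for all integral points of
all elliptic curves `y ^ 2 = x ^ 3 + A x + B`, then `M ≥ 15 / 2`.
(3) If `K, M > 0` are such that `|x| ≤ K (max |A| |B|) ^ M` holds for all these points, then
`M ≥ 5`. -/
theorem result :
    (∀ k : ℤ, 1 ≤ k → ∃ x y : ℤ,
      4 * (-(2 * k ^ 2 + 7)) ^ 3 + 27 * (3 * (k ^ 2 + 2)) ^ 2 ≠ 0 ∧
      y ^ 2 = x ^ 3 + (-(2 * k ^ 2 + 7)) * x + 3 * (k ^ 2 + 2) ∧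
      k ^ 10 ≤ 4 * x ∧ k ^ 15 ≤ 8 * y) ∧
    (∀ K M : ℝ, 0 < K → 0 < M →
      (∀ A B x y : ℤ, 4 * A ^ 3 + 27 * B ^ 2 ≠ 0 → y ^ 2 = x ^ 3 + A * x + B →
        ((max |x| |y| : ℤ) : ℝ) ≤ K * ((max |A| |B| : ℤ) : ℝ) ^ M) → 15 / 2 ≤ M) ∧
    (∀ K M : ℝ, 0 < K → 0 < M →
      (∀ A B x y : ℤ, 4 * A ^ 3 + 27 * B ^ 2 ≠ 0 → y ^ 2 = x ^ 3 + A * x + B →
        ((|x| : ℤ) : ℝ) ≤ K * ((max |A| |B| : ℤ) : ℝ) ^ M) → 5 ≤ M) := by
  refine ⟨family, ?_, ?_⟩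
  · intro K M hK hM h
    have h1 := exponent 15 8 (by norm_num) (by norm_num) K M hK hM ?_
    · exact_mod_cast h1
    · intro k hk
      obtain ⟨x, y, hd, he, -, hy⟩ := family k (by omega)
      have h2 := h _ _ x y hd he
      have h3 : k ^ 15 ≤ 8 * max |x| |y| := by
        have h4 : y ≤ max |x| |y| := (le_abs_self y).trans (le_max_right _ _)
        linarith
      have h5 : (k : ℝ) ^ 15 ≤ 8 * ((max |x| |y| : ℤ) : ℝ) := by exact_mod_cast h3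
      calc (k : ℝ) ^ 15 ≤ 8 * ((max |x| |y| : ℤ) : ℝ) := h5
        _ ≤ ((8 : ℕ) : ℝ) * _ := by
          push_cast at h2 ⊢
          gcongr
  · intro K M hK hM h
    have h1 := exponent 10 4 (by norm_num) (by norm_num) K M hK hM ?_
    · have h2 : ((10 : ℕ) : ℝ) / 2 = 5 := by norm_num
      rwa [h2] at h1
    · intro k hk
      obtain ⟨x, y, hd, he, hx, -⟩ := family k (by omega)
      have h2 := h _ _ x y hd he
      have h3 : k ^ 10 ≤ 4 * |x| := by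
        have h4 : x ≤ |x| := le_abs_self x
        linarith
      have h5 : (k : ℝ) ^ 10 ≤ 4 * ((|x| : ℤ) : ℝ) := by exact_mod_cast h3
      calc (k : ℝ) ^ 10 ≤ 4 * ((|x| : ℤ) : ℝ) := h5
        _ ≤ ((4 : ℕ) : ℝ) * _ := by
          push_cast at h2 ⊢
          gcongr

end Pool.Agent.Results.MP_a1107e_nt.ExponentAtLeast
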